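import Pool.Agent.N990.PT.Stm

/-!
Project PT (helper990), leaf MID: the law of the middle spin of a branch.
-/

set_option autoImplicit false

namespace Pool.Agent.N793.PT

open Pool.Agent.N988.EA hiding act
open Pool.Agent.N990.PT

variable {b q n : ℕ}

/-- the boundary condition of the half `h` of a branch with middle spin `m` -/
def T (τ : Bool → Fin q) (h : Bool) (m : Fin q) : Bool → Fin q := fun t => if t = h then τ t else m

/-- the middle spin of a branch -/
def mid (σ : Vert b (n + 1) → Fin q) (i : Fin b) : Fin q := σ (Sum.inl i : Vert b (n + 1))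

/-- the interior spins of the half of a branch -/
def inn (σ : Vert b (n + 1) → Fin q) (i : Fin b) (h : Bool) : Vert b n → Fin q :=
  fun x => σ (Sum.inr (i, h, x) : Vert b (n + 1))

theorem elim_emb (τ : Bool → Fin q) (σ : Vert b (n + 1) → Fin q) (i : Fin b) (h : Bool)
    (p : Pt b n) : (Sum.elim τ σ : Pt b (n + 1) → Fin q) (emb i h p) =
      Sum.elim (T τ h (mid σ i)) (inn σ i h) p := by
  rcases p with s | x
  · by_cases hs : s = h
    · subst hs
      simp [emb, T]
    · simp only [emb, T, if_neg hs, Sum.elim_inl]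
      rfl
  · rfl

/-- the action is the sum of the actions of the halves -/
theorem act_succ (β : ℝ) (τ : Bool → Fin q) (σ : Vert b (n + 1) → Fin q) :
    act β (n + 1) (Sum.elim τ σ) = ∑ i : Fin b, ∑ h : Bool,
      act β n (Sum.elim (T τ h (mid σ i)) (inn σ i h)) := by
  unfold act
  have h1 : (∑ e : Edge b (n + 1), if (Sum.elim τ σ : Pt b (n + 1) → Fin q) (bd (n + 1) e false) =
      (Sum.elim τ σ : Pt b (n + 1) → Fin q) (bd (n + 1) e true) then (1 : ℝ) else 0) =
      ∑ e : Fin b × Bool × Edge b n,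
        if (Sum.elim τ σ : Pt b (n + 1) → Fin q) (emb e.1 e.2.1 (bd n e.2.2 false)) =
          (Sum.elim τ σ : Pt b (n + 1) → Fin q) (emb e.1 e.2.1 (bd n e.2.2 true))
          then (1 : ℝ) else 0 :=
    Fintype.sum_equiv (Equiv.refl _) _ _ fun e => rfl
  rw [h1, Fintype.sum_prod_type, Finset.mul_sum]
  refine Finset.sum_congr rfl fun i _ => ?_
  rw [Fintype.sum_prod_type, Finset.mul_sum]
  refine Finset.sum_congr rfl fun h _ => ?_
  congr 1
  refine Finset.sum_congr rfl fun e _ => ?_
  simp only [elim_emb]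

/-- configurations of the branches -/
def eqv : (Vert b (n + 1) → Fin q) ≃ (Fin b → Fin q × (Bool → (Vert b n → Fin q))) where
  toFun σ i := (mid σ i, inn σ i)
  invFun g := fun v : Fin b ⊕ (Fin b × Bool × Vert b n) =>
    Sum.elim (fun i => (g i).1) (fun p => (g p.1).2 p.2.1 p.2.2) v
  left_inv σ := by
    funext v
    change Fin b ⊕ (Fin b × Bool × Vert b n) at v
    rcases v with i | ⟨i, h, x⟩ <;> rfl
  right_inv g := rfl

/-- the sum over the configurations factorizes -/
theorem fact (β : ℝ) (τ : Bool → Fin q) (φ : Fin b → Fin q → ℝ) :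
    ∑ σ : Vert b (n + 1) → Fin q, (∏ i, φ i (mid σ i)) * Real.exp (act β (n + 1) (Sum.elim τ σ)) =
    ∏ i : Fin b, ∑ m : Fin q, φ i m * ∏ h : Bool, Zf b q β n (T τ h m) := by
  have h1 : ∑ σ : Vert b (n + 1) → Fin q, (∏ i, φ i (mid σ i)) *
      Real.exp (act β (n + 1) (Sum.elim τ σ)) =
      ∑ g : Fin b → Fin q × (Bool → (Vert b n → Fin q)),
      ∏ i : Fin b, (φ i (g i).1 * ∏ h : Bool,
        Real.exp (act β n (Sum.elim (T τ h (g i).1) ((g i).2 h)))) := by
    refine Fintype.sum_equiv eqv _ _ fun σ => ?_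
    rw [act_succ, Real.exp_sum]
    simp only [Real.exp_sum, Finset.prod_mul_distrib]
    rfl
  rw [h1]
  have h2 := Finset.prod_univ_sum (fun _ : Fin b => (Finset.univ : Finset
    (Fin q × (Bool → (Vert b n → Fin q))))) (fun i g => (φ i g.1 * ∏ h : Bool,
        Real.exp (act β n (Sum.elim (T τ h g.1) (g.2 h)))))
  rw [Fintype.piFinset_univ] at h2
  rw [← h2]
  refine Finset.prod_congr rfl fun i _ => ?_
  rw [Fintype.sum_prod_type]
  refine Finset.sum_congr rfl fun m _ => ?_
  simp only
  rw [← Finset.mul_sum]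
  congr 1
  have h3 := Finset.prod_univ_sum (fun _ : Bool => (Finset.univ : Finset (Vert b n → Fin q)))
    (fun h ρ => Real.exp (act β n (Sum.elim (T τ h m) ρ)))
  rw [Fintype.piFinset_univ] at h3
  exact h3.symm

/-- the weight of the middle spin -/
noncomputable def wt (K : ℝ) (τ : Bool → Fin q) (c : Fin q) : ℝ :=
  Real.exp (K * ((if c = τ false then 1 else 0) + if c = τ true then 1 else 0))

theorem sum_wt_eq (K : ℝ) (τ : Bool → Fin q) (h : τ false = τ true) :
    ∑ c, wt K τ c = Real.exp (2 * K) + q - 1 := by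
  have h1 : ∀ c : Fin q, wt K τ c = 1 + (if c = τ true then Real.exp (2 * K) - 1 else 0) := by
    intro c
    unfold wt
    rw [h]
    split_ifs
    · rw [show K * (1 + 1) = 2 * K by ring]; ring
    · rw [add_zero, mul_zero, Real.exp_zero, add_zero]
  rw [Finset.sum_congr rfl fun c _ => h1 c, Finset.sum_add_distrib, Finset.sum_ite_eq']
  simp
  ring

theorem sum_wt_ne (K : ℝ) (τ : Bool → Fin q) (h : τ false ≠ τ true) :
    ∑ c, wt K τ c = 2 * Real.exp K + q - 2 := by
  have h1 : ∀ c : Fin q, wt K τ c = 1 + (if c = τ false then Real.exp K - 1 else 0) +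
      (if c = τ true then Real.exp K - 1 else 0) := by
    intro c
    unfold wt
    by_cases h2 : c = τ false
    · have h3 : c ≠ τ true := fun h4 => h (h2.symm.trans h4)
      rw [if_pos h2, if_neg h3, if_pos h2, if_neg h3, add_zero, mul_one]
      ring
    · by_cases h3 : c = τ true
      · rw [if_neg h2, if_pos h3, if_neg h2, if_pos h3, zero_add, mul_one]
        ring
      · rw [if_neg h2, if_neg h3, if_neg h2, if_neg h3, add_zero, mul_zero, Real.exp_zero]
        ring
  rw [Finset.sum_congr rfl fun c _ => h1 c, Finset.sum_add_distrib, Finset.sum_add_distrib,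
    Finset.sum_ite_eq', Finset.sum_ite_eq']
  simp
  ring

theorem wt_prod {C K : ℝ} {β : ℝ} (hZ : ∀ τ : Bool → Fin q,
    Zf b q β n τ = C * Real.exp (K * (if τ false = τ true then 1 else 0)))
    (τ : Bool → Fin q) (m : Fin q) : ∏ h : Bool, Zf b q β n (T τ h m) = C ^ 2 * wt K τ m := by
  rw [Fintype.prod_bool, hZ, hZ]
  have e1 : T τ true m false = m := by simp [T]
  have e2 : T τ true m true = τ true := by simp [T]
  have e3 : T τ false m false = τ false := by simp [T]
  have e4 : T τ false m true = m := by simp [T]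
  rw [e1, e2, e3, e4, mul_mul_mul_comm, ← Real.exp_add, ← pow_two]
  unfold wt
  congr 2
  by_cases h1 : m = τ true
  · by_cases h2 : m = τ false
    · rw [if_pos h1, if_pos h2.symm, if_pos h2]; ring
    · rw [if_pos h1, if_neg (Ne.symm h2), if_neg h2]; ring
  · by_cases h2 : m = τ false
    · rw [if_neg h1, if_pos h2.symm, if_pos h2]; ring
    · rw [if_neg h1, if_neg (Ne.symm h2), if_neg h2]; ring

theorem Zf_succ (β : ℝ) (τ : Bool → Fin q) :
    Zf b q β (n + 1) τ = ∏ _i : Fin b, ∑ m : Fin q, ∏ h : Bool, Zf b q β n (T τ h m) := by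
  have h := fact (b := b) (n := n) β τ (fun _ _ => 1)
  simp only [Finset.prod_const_one, one_mul] at h
  exact h

theorem Z_form (b q : ℕ) (hq : 2 ≤ q) (β : ℝ) : ∀ n : ℕ, ∃ C : ℝ, 0 < C ∧ ∀ τ : Bool → Fin q,
    Zf b q β n τ = C * Real.exp (Kf b q β n * (if τ false = τ true then 1 else 0)) := by
  intro n
  have hq' : (2 : ℝ) ≤ q := by exact_mod_cast hq
  induction n with
  | zero =>
    refine ⟨1, one_pos, fun τ => ?_⟩
    have : IsEmpty (Vert b 0) := inferInstanceAs (IsEmpty Empty)
    unfold Zf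
    rw [Fintype.sum_unique, one_mul]
    congr 1
    unfold act
    have h1 : ∀ F : Edge b 0 → ℝ, ∑ e : Edge b 0, F e = F () := by
      intro F
      have h2 : ∀ G : Unit → ℝ, (∀ e : Edge b 0, F e = G e) → ∑ e : Edge b 0, F e = G () := by
        intro G hG
        have h3 : ∑ e : Edge b 0, F e = ∑ e : Unit, G e :=
          Fintype.sum_equiv (Equiv.refl _) _ _ fun e => hG e
        rw [h3, Fintype.sum_unique]
      exact h2 (fun u => F u) fun e => rfl
    rw [h1]
    rfl
  | succ n ih =>
    obtain ⟨C, hC, hZ⟩ := ih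
    set K := Kf b q β n with hK
    have hden : 0 < 2 * Real.exp K + q - 2 := by
      have := Real.exp_pos K
      linarith
    have hnum : 0 < Real.exp (2 * K) + q - 1 := by
      have := Real.exp_pos (2 * K)
      linarith
    refine ⟨(C ^ 2 * (2 * Real.exp K + q - 2)) ^ b, by positivity, fun τ => ?_⟩
    have hKs : Kf b q β (n + 1) = b * Real.log ((Real.exp (2 * K) + q - 1) /
      (2 * Real.exp K + q - 2)) := rfl
    rw [Zf_succ, hKs]
    simp only [wt_prod hZ, ← Finset.mul_sum]
    rw [Finset.prod_const, Finset.card_univ, Fintype.card_fin]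
    by_cases h : τ false = τ true
    · rw [if_pos h, sum_wt_eq K τ h, mul_one, Real.exp_nat_mul, Real.exp_log (by positivity),
        ← mul_pow]
      congr 1
      field_simp
    · rw [if_neg h, sum_wt_ne K τ h, mul_zero, Real.exp_zero, mul_one]

theorem t_mid : S_MID := by
  intro b q hq β n i τ F
  obtain ⟨C, hC, hZ⟩ := Z_form b q hq β n
  set K := Kf b q β n with hK
  have hfact := fact (b := b) (n := n) β τ (fun j m => if j = i then F m else 1)
  have hprod : ∀ σ : Vert b (n + 1) → Fin q,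
      (∏ j, if j = i then F (mid σ j) else 1) = F (σ (Sum.inl i)) := by
    intro σ
    rw [Finset.prod_ite_eq']
    simp [mid]
  simp only [hprod, wt_prod hZ] at hfact
  have hS : 0 < ∑ m, wt K τ m :=
    Finset.sum_pos (fun m _ => Real.exp_pos _) ⟨⟨0, by omega⟩, Finset.mem_univ _⟩
  have hZs : Zf b q β (n + 1) τ = ∏ _j : Fin b, (C ^ 2 * ∑ m, wt K τ m) := by
    rw [Zf_succ]
    simp only [wt_prod hZ, ← Finset.mul_sum]
  rw [← Finset.mul_prod_erase _ _ (Finset.mem_univ i)] at hfact hZs
  have hrest : ∏ j ∈ Finset.univ.erase i, (∑ m : Fin q, (if j = i then F m else 1) *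
      (C ^ 2 * wt K τ m)) = ∏ j ∈ Finset.univ.erase i, (C ^ 2 * ∑ m, wt K τ m) := by
    refine Finset.prod_congr rfl fun j hj => ?_
    rw [Finset.mul_sum]
    refine Finset.sum_congr rfl fun m _ => ?_
    rw [if_neg (Finset.ne_of_mem_erase hj), one_mul]
  rw [hrest] at hfact
  simp only [if_true] at hfact
  have hP : 0 < ∏ j ∈ (Finset.univ : Finset (Fin b)).erase i, (C ^ 2 * ∑ m, wt K τ m) :=
    Finset.prod_pos fun j _ => by positivity
  have hmw : ∀ c, mw K τ c = wt K τ c / ∑ a, wt K τ a := fun c => rfl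
  simp only [hmw]
  unfold gw
  have hL : ∑ s : Vert b (n + 1) → Fin q, Real.exp (act β (n + 1) (Sum.elim τ s)) /
      Zf b q β (n + 1) τ * F (s (Sum.inl i)) =
      (∑ s : Vert b (n + 1) → Fin q, F (s (Sum.inl i)) *
        Real.exp (act β (n + 1) (Sum.elim τ s))) / Zf b q β (n + 1) τ := by
    rw [Finset.sum_div]
    refine Finset.sum_congr rfl fun s _ => ?_
    ring
  have hR : ∑ c, wt K τ c / (∑ a, wt K τ a) * F c = (∑ c, F c * wt K τ c) / ∑ a, wt K τ a := by
    rw [Finset.sum_div]
    refine Finset.sum_congr rfl fun s _ => ?_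
    ring
  rw [hL, hR, hfact, hZs]
  have hF : ∑ m, F m * (C ^ 2 * wt K τ m) = C ^ 2 * ∑ m, F m * wt K τ m := by
    rw [Finset.mul_sum]
    refine Finset.sum_congr rfl fun s _ => ?_
    ring
  rw [hF, mul_div_mul_right _ _ hP.ne', mul_div_mul_left _ _ (by positivity)]

end Pool.Agent.N793.PT
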